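import Pool.Agent.H31.SubX2

namespace Pool.Agent.Results.MP_b62331_al.No

/-- A class of finite groups. -/
abbrev GroupClass := ∀ (K : Type) [Group K] [Finite K], Prop

/-- Closed under isomorphism. -/
def IsoClosed (X : GroupClass) : Prop :=
  ∀ (K L : Type) [Group K] [Finite K] [Group L] [Finite L], Nonempty (K ≃* L) → X K → X L

/-- Closed under taking subgroups. -/
def SubClosed (X : GroupClass) : Prop :=
  ∀ (K : Type) [Group K] [Finite K] (H : Subgroup K), X K → X H

/-- `H` is a maximal `X`-subgroup of `G`. -/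
def IsMaxX (X : GroupClass) {G : Type} [Group G] [Finite G] (H : Subgroup G) : Prop :=
  X H ∧ ∀ K : Subgroup G, X K → ¬ H < K

/-- `H` is a maximal normal `X`-subgroup of `G`. -/
def IsMaxNormalX (X : GroupClass) {G : Type} [Group G] [Finite G] (H : Subgroup G) : Prop :=
  H.Normal ∧ X H ∧ ∀ K : Subgroup G, K.Normal → X K → ¬ H < K

/-- `a_G(H)`: the number of `X`-subgroups `K` with `H < K` and `|K : H| = p`. -/
noncomputable def aCount (p : ℕ) (X : GroupClass) {G : Type} [Group G] [Finite G]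
    (H : Subgroup G) : ℕ :=
  Nat.card {K : Subgroup G // H < K ∧ X K ∧ H.relIndex K = p}

/-- Condition (A) for `G`. -/
def CondA (p : ℕ) (X : GroupClass) (G : Type) [Group G] [Finite G] : Prop :=
  ∀ H : Subgroup G, X H → aCount p X H = 0 ∨ aCount p X H ≡ 1 [MOD p]

theorem result (p : ℕ) (hp : p.Prime) :
    ∃ X : GroupClass, IsoClosed X ∧ SubClosed X ∧
      (∀ (G : Type) [Group G] [Finite G], IsPGroup p G →
        ∀ N : Subgroup G, IsMaxNormalX X N → IsMaxX X N) ∧
      ∃ (G : Type) (_ : Group G) (_ : Finite G), IsPGroup p G ∧ Nat.card G = p ^ 4 ∧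
        (∃ H : Subgroup G, X H ∧ aCount p X H = 2) ∧ ¬ CondA p X G := by
  haveI : Fact p.Prime := ⟨hp⟩
  refine ⟨fun K _ _ => H31.SubX.XX p K, ?_, ?_, ?_, H31.SubX.Gp p, inferInstance, inferInstance,
    IsPGroup.of_card H31.SubX.card_Gp, H31.SubX.card_Gp,
    ⟨H31.SubX.sH, Or.inl H31.SubX.card_H.le, H31.SubX.count⟩, ?_⟩
  · rintro K L _ _ _ _ ⟨e⟩ h
    exact H31.SubX.XX_iso e h
  · intro K _ _ H h
    exact H31.SubX.XX_sub H h
  · rintro G _ _ hG N ⟨hN, hX, hmax⟩
    exact ⟨hX, fun K hK => H31.SubX.cond1 hG N hmax K hK⟩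
  · intro h
    have h2 : aCount p (fun K _ _ => H31.SubX.XX p K) (H31.SubX.sH : Subgroup (H31.SubX.Gp p))
        = 2 := H31.SubX.count
    rcases h H31.SubX.sH (Or.inl H31.SubX.card_H.le) with h3 | h3
    · omega
    · rw [h2] at h3
      have := (Nat.modEq_iff_dvd' (by norm_num : 1 ≤ 2)).mp h3.symm
      exact hp.one_lt.ne' (Nat.dvd_one.mp this)

end Pool.Agent.Results.MP_b62331_al.No
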